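import Pool.Agent.Q80.ND.N9

/-!
# Neumann eigenfunctions of the square have many nodal domains

Let `Ω = (0, π)²` and let `u ≠ 0` be a real eigenfunction of the Neumann Laplacian of `Ω` with the eigenvalue
`λ = p² + q²`, that is, a linear combination of the functions `cos (p x) cos (q y)` with `p² + q² = λ`. For every
`ε > 0` the number `μ(u)` of the nodal domains is at least `c λ ^ (1/4 - ε)`, with `c > 0` depending on `ε` only. So
`μ(u_n) → ∞` for all sequences of eigenfunctions whose eigenvalues tend to infinity, without any condition on the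
multiplicities.

Idea of the proof. Let `N` be the largest number with `p² + N² = λ` for some `p`; all other lattice points `(x, y)` of
the circle with `y ≠ p` have `y ≥ √(2N - 1)`, and there are only `λ ^ o(1)` lattice points. Exchanging `x` and `y`
we may assume that the coefficient of `cos (p x) cos (N y)` is at least as large as that of `cos (N x) cos (p y)`.
On the side `x = 0` the function `u` is a cosine polynomial `g` with few frequencies, one small frequency `p`, the
largest frequency `N`, and the coefficient of `cos (p y)` is at most that of `cos (N y)`. On the comb of the points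
`π j / N` the cosines are orthogonal. If the sign of `g` changed rarely on the comb, it would be almost uncorrelated
to all cosines but `cos (p y)`, so that the mean of `|g|` would be at most about `|d_p| · mean |cos (p y)|`; but it is
at least `|d_N|`. This is absurd if `p > 0`. If `p = 0`, then `g` has a constant sign at nearly all points of the comb,
while the mean of `g` over one of the two halves of the comb (where `cos (N y)` is `1` or `-1`) has the other sign or
is zero; as `g` has few frequencies it cannot be concentrated in few points, a contradiction. So there are many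
changes of the sign (or between positive values and zeros) on the boundary. At a zero on the boundary the
function takes both signs nearby, by the mean value property. Finally two disjoint domains in a half plane do not
touch the boundary line in an interlaced way, and this gives the lower bound of the number of domains.
-/

set_option autoImplicit false

open Set Filter Topology

namespace Pool.Agent.Results.MP_65f45c_an.ManyNodalDomains

noncomputable section

/-- the open square `(0, π)²` -/
def Ω : Set (ℝ × ℝ) := {z | 0 < z.1 ∧ z.1 < Real.pi ∧ 0 < z.2 ∧ z.2 < Real.pi}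

/-- the real eigenspace for `lam`, spanned by the functions `cos (p x) cos (q y)` with `p² + q² = lam` -/
def eigenspace (lam : ℕ) : Submodule ℝ (ℝ × ℝ → ℝ) :=
  Submodule.span ℝ {f | ∃ p q : ℕ, p ^ 2 + q ^ 2 = lam ∧
    f = fun z => Real.cos (p * z.1) * Real.cos (q * z.2)}

/-- the nodal set: the closure of the set of the zeros in `Ω` -/
def nodalSet (u : ℝ × ℝ → ℝ) : Set (ℝ × ℝ) := closure {z ∈ Ω | u z = 0}

/-- the nodal domains: the connected components of `Ω` minus the nodal set -/
def nodalDomains (u : ℝ × ℝ → ℝ) : Set (Set (ℝ × ℝ)) :=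
  {D | ∃ z ∈ Ω \ nodalSet u, D = connectedComponentIn (Ω \ nodalSet u) z}

/-- the number of the nodal domains -/
def mu (u : ℝ × ℝ → ℝ) : ℕ∞ := (nodalDomains u).encard

lemma exists_coef (lam : ℕ) (u : ℝ × ℝ → ℝ) (hu : u ∈ eigenspace lam) : ∃ c : ℕ → ℕ → ℝ,
    (∀ p q, c p q ≠ 0 → p ^ 2 + q ^ 2 = lam) ∧ u = Pool.Agent.Q80.ND.U lam c := by
  unfold eigenspace at hu
  induction hu using Submodule.span_induction with
  | mem f hf =>
    obtain ⟨p, q, hpq, rfl⟩ := hf
    refine ⟨fun a b => if a = p ∧ b = q then 1 else 0, fun a b hab => ?_, ?_⟩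
    · by_cases h : a = p ∧ b = q
      · rw [h.1, h.2]
        exact hpq
      · exact absurd (if_neg h) hab
    · funext z
      unfold Pool.Agent.Q80.ND.U
      have hp := (Pool.Agent.Q80.ND.le_of_sq hpq).1
      have hq := (Pool.Agent.Q80.ND.le_of_sq hpq).2
      rw [Finset.sum_eq_single p, Finset.sum_eq_single q]
      · simp
      · intro b _ hb
        simp [hb]
      · intro hb
        rw [Finset.mem_range] at hb
        omega
      · intro a _ ha
        simp [ha]
      · intro hb
        rw [Finset.mem_range] at hb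
        omega
  | zero =>
    refine ⟨fun _ _ => 0, fun a b hab => absurd rfl hab, ?_⟩
    funext z
    simp [Pool.Agent.Q80.ND.U]
  | add f g _ _ hf hg =>
    obtain ⟨c, hc, rfl⟩ := hf
    obtain ⟨d, hd, rfl⟩ := hg
    refine ⟨fun a b => c a b + d a b, fun a b hab => ?_, ?_⟩
    · by_cases h : c a b = 0
      · exact hd a b fun h2 => hab (by simp [h, h2])
      · exact hc a b h
    · funext z
      simp only [Pi.add_apply]
      unfold Pool.Agent.Q80.ND.U
      rw [← Finset.sum_add_distrib]
      refine Finset.sum_congr rfl fun a _ => ?_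
      rw [← Finset.sum_add_distrib]
      refine Finset.sum_congr rfl fun b _ => ?_
      ring
  | smul t f _ hf =>
    obtain ⟨c, hc, rfl⟩ := hf
    refine ⟨fun a b => t * c a b, fun a b hab => hc a b fun h => hab (by simp [h]), ?_⟩
    funext z
    rw [Pool.Agent.Q80.ND.U_smul]
    rfl

lemma domains_eq (u : ℝ × ℝ → ℝ) (hu : Continuous u) :
    nodalDomains u = Pool.Agent.Q80.ND.comps {z ∈ Pool.Agent.Q80.ND.Sq | u z ≠ 0} := by
  have h1 : Ω \ nodalSet u = {z ∈ Pool.Agent.Q80.ND.Sq | u z ≠ 0} := by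
    ext z
    constructor
    · rintro ⟨hz, hn⟩
      exact ⟨hz, fun h0 => hn (subset_closure ⟨hz, h0⟩)⟩
    · rintro ⟨hz, h0⟩
      refine ⟨hz, fun hn => h0 ?_⟩
      have h2 : nodalSet u ⊆ {z | u z = 0} :=
        closure_minimal (fun w hw => hw.2) (isClosed_eq hu continuous_const)
      exact h2 hn
  unfold nodalDomains Pool.Agent.Q80.ND.comps
  rw [h1]

/-- **Many nodal domains.** -/
theorem result :
    (∀ ε : ℝ, 0 < ε → ∃ c : ℝ, 0 < c ∧ ∀ lam : ℕ, 1 ≤ lam → ∀ u ∈ eigenspace lam, u ≠ 0 →
      ∀ k : ℕ, (k : ℝ) ≤ c * (lam : ℝ) ^ (1 / 4 - ε) → (k : ℕ∞) ≤ mu u) ∧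
    (∀ (lam : ℕ → ℕ) (u : ℕ → ℝ × ℝ → ℝ), Tendsto lam atTop atTop →
      (∀ n, u n ∈ eigenspace (lam n) ∧ u n ≠ 0) → Tendsto (fun n => mu (u n)) atTop (𝓝 ⊤)) := by
  have key : ∀ ε : ℝ, 0 < ε → ∃ c : ℝ, 0 < c ∧ ∀ lam : ℕ, 1 ≤ lam → ∀ u ∈ eigenspace lam, u ≠ 0 →
      ∀ k : ℕ, (k : ℝ) ≤ c * (lam : ℝ) ^ (1 / 4 - ε) → (k : ℕ∞) ≤ mu u := by
    intro ε hε
    obtain ⟨C, hC, hr⟩ := Pool.Agent.Q197.FM.r2_bound (ε / 2) (by linarith)
    refine ⟨1 / (408 * C ^ 2), by positivity, fun lam hlam u hu hu0 k hk => ?_⟩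
    rcases Nat.eq_zero_or_pos k with hk0 | hk0
    · rw [hk0]
      simp
    obtain ⟨c, hc, rfl⟩ := exists_coef lam u hu
    have hl : (0 : ℝ) < lam := by exact_mod_cast hlam
    have hne : ∃ a b, c a b ≠ 0 := by
      by_contra hcon
      push Not at hcon
      apply hu0
      funext z
      simp [Pool.Agent.Q80.ND.U, hcon]
    have hM : ∀ F : Finset (ℤ × ℤ), (∀ z ∈ F, z.1 ^ 2 + z.2 ^ 2 = lam) →
        F.card ≤ ⌊C * (lam : ℝ) ^ (ε / 2)⌋₊ := fun F hF => Nat.le_floor (hr lam hlam F hF)
    have hfl : (⌊C * (lam : ℝ) ^ (ε / 2)⌋₊ : ℝ) ≤ C * (lam : ℝ) ^ (ε / 2) :=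
      Nat.floor_le (by positivity)
    have hk1 : (1 : ℝ) ≤ k := by exact_mod_cast hk0
    have hbig : 24 * (⌊C * (lam : ℝ) ^ (ε / 2)⌋₊ : ℝ) ^ 2 * (8 * k + 9) ≤ (lam : ℝ) ^ (1 / 4 : ℝ) := by
      have h1 : (⌊C * (lam : ℝ) ^ (ε / 2)⌋₊ : ℝ) ^ 2 ≤ C ^ 2 * (lam : ℝ) ^ ε := by
        have h2 : (C * (lam : ℝ) ^ (ε / 2)) ^ 2 = C ^ 2 * (lam : ℝ) ^ ε := by
          rw [mul_pow, ← Real.rpow_natCast ((lam : ℝ) ^ (ε / 2)), ← Real.rpow_mul hl.le]
          congr 2
          push_cast
          ring
        rw [← h2]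
        exact pow_le_pow_left₀ (Nat.cast_nonneg _) hfl 2
      have h3 : (8 * (k : ℝ) + 9) ≤ 17 * k := by linarith
      have h4 : (lam : ℝ) ^ ε * (lam : ℝ) ^ (1 / 4 - ε) = (lam : ℝ) ^ (1 / 4 : ℝ) := by
        rw [← Real.rpow_add hl]
        congr 1
        ring
      calc 24 * (⌊C * (lam : ℝ) ^ (ε / 2)⌋₊ : ℝ) ^ 2 * (8 * k + 9)
          ≤ 24 * (C ^ 2 * (lam : ℝ) ^ ε) * (17 * k) := by
            refine mul_le_mul (by linarith) h3 (by positivity) (by positivity)
        _ ≤ 24 * (C ^ 2 * (lam : ℝ) ^ ε) * (17 * (1 / (408 * C ^ 2) * (lam : ℝ) ^ (1 / 4 - ε))) := by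
            refine mul_le_mul_of_nonneg_left (by linarith) (by positivity)
        _ = (lam : ℝ) ^ ε * (lam : ℝ) ^ (1 / 4 - ε) := by
            field_simp
            ring
        _ = _ := h4
    have h5 := Pool.Agent.Q80.ND.main hlam c hc hne hM hk0 hbig
    unfold mu
    rw [domains_eq _ (Pool.Agent.Q80.ND.U_cont lam c)]
    exact le_trans (by exact_mod_cast Nat.le_succ k) h5
  refine ⟨key, fun lam u hlam hu => ?_⟩
  obtain ⟨c, hc, hkey⟩ := key (1 / 8) (by norm_num)
  rw [ENat.tendsto_nhds_top_iff_natCast_lt]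
  intro k
  have h1 : Tendsto (fun n => c * ((lam n : ℕ) : ℝ) ^ (1 / 4 - 1 / 8 : ℝ)) atTop atTop := by
    refine Tendsto.const_mul_atTop hc ?_
    exact (tendsto_rpow_atTop (by norm_num)).comp (tendsto_natCast_atTop_atTop.comp hlam)
  filter_upwards [h1.eventually_ge_atTop ((k : ℝ) + 1), hlam.eventually_ge_atTop 1] with n hn hn1
  have h2 := hkey (lam n) hn1 (u n) (hu n).1 (hu n).2 (k + 1) (by push_cast; exact hn)
  exact lt_of_lt_of_le (by exact_mod_cast Nat.lt_succ_self k) h2

end

end Pool.Agent.Results.MP_65f45c_an.ManyNodalDomains
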